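import Mathlib
import Pool.Agent.H62.Q1.Asm
import Pool.Agent.H16.FQ.Adapt
import Pool.Agent.H95.End.Leaf
import Pool.Agent.H73.P4.RS2
import Pool.Agent.H55.Q.KD
import Pool.Agent.H62.Ind.P3
import Pool.Agent.H26.P3.End
import Pool.Agent.H17.P3.Glue

set_option autoImplicit false

/-!
Full Q1 of MP_a46c6f_co from the statement on rooted codes with sides: assembly.
-/

namespace Pool.Agent.H88.Q

open Finset hiding mem_sup sup
open SimpleGraph Pool.Agent.H5.Goddyn Pool.Agent.H98.TC Pool.Agent.H64.Pent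
open Pool.Agent.H98.Code Pool.Agent.H17.P3
open Pool.Agent.H26.TR (KD IsParts)

/-- the statement on rooted codes with sides (row (B)) -/
def Heart : Prop :=
  ∀ (X : Type) [Fintype X] [DecidableEq X] (B : Submodule (ZMod 2) (X → K)) (e : X)
    (H : X → X → ZMod 2) (S : (X → K) → Finset X → Prop), IsCode B → Pool.Agent.H17.TR.IsMat B H →
    Pool.Agent.H77.Q.RSides B e S →
    ∃ M : X → X → ZMod 2, (∀ x y, M x y = M y x) ∧ (∀ x, M e x = 0) ∧
      (∀ u, u ≠ e → ∀ v, (∑ w, H u w * (M u v + M w v)) = if u = v then 1 else 0) ∧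
      Pairs M ∧ P4Split M

theorem tree_of_heart (hH : Heart) {X : Type} [Fintype X] [DecidableEq X]
    (B : Submodule (ZMod 2) (X → K)) (e : X) (S : (X → K) → Finset X → Prop) (hB : IsCode B)
    (hz : NoZ B) (hR : Pool.Agent.H77.Q.RSides B e S) : (graph B).IsTree := by
  obtain ⟨H, hs, hm⟩ := exists_matrix hB hz
  have hH1 : Pool.Agent.H17.TR.IsMat B H := ⟨hs, hm⟩
  have hH2 : Pool.Agent.H32.AA.IsMat B H := ⟨hs, hm⟩
  have heq : graph B = Pool.Agent.H17.TR.GrH H := by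
    ext v w
    rw [Pool.Agent.H32.AA.adj_iff hH2, hH1.adj]
  rw [heq]
  obtain ⟨M, ms, me, minv, mp, m4⟩ := hH X B e H S hB hH1 hR
  exact Pool.Agent.H26.P3.tree_end X e H M hs ms me minv mp (Pool.Agent.H62.Ind.p3 X M ms mp m4)

variable {V : Type} [Fintype V] [DecidableEq V] {L : Submodule (ZMod 2) (V → K)}
  {S : (V → K) → Finset V → Prop}

theorem sides95 (hS : Pool.Agent.H31.Q.Sides L S) : Pool.Agent.H95.End.Sides L S := by
  refine ⟨fun u Y h => (hS.mem u Y h).1, fun u Y h => (hS.mem u Y h).2, hS.ex, ?_, ?_⟩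
  · intro u Y h
    obtain ⟨Y', h1, h2⟩ := hS.compl u Y h
    exact ⟨Y', h1, fun v hv => ⟨fun h3 => ((h2 v).1 h3).2, fun h3 => (h2 v).2 ⟨hv, h3⟩⟩⟩
  · intro u Y h k hk hle
    obtain ⟨k', h1, h2, h3, h4, ⟨Y₁, h5, h6⟩, Y₂, h7, h8⟩ := hS.part u Y h k hk hle
    exact ⟨k', Y₁, Y₂, h6, by rw [add_comm]; exact h8, h5, h7, h2, h3, h4⟩

theorem wc_one (hS : Pool.Agent.H31.Q.Sides L S) : ∀ u ∈ L, u ≠ 0 → ZFree u →
    (∃ e : V, ∀ v, v ≠ e → u v ≠ 0) → ∃ g, Splits L u g := by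
  rintro u hu hu0 hz ⟨e, he⟩
  obtain ⟨Y, hY⟩ := hS.ex u hu
  have h1 : ∀ v ∈ Y, v = e := by
    intro v hv
    by_contra hne
    exact he v hne ((hS.mem u Y hY).2 v hv)
  by_cases heY : e ∈ Y
  · obtain ⟨Y', hY', h2⟩ := hS.compl u Y hY
    have h3 : Y' = ∅ := by
      apply Finset.eq_empty_of_forall_notMem
      intro v hv
      obtain ⟨h4, h5⟩ := (h2 v).1 hv
      by_cases hve : v = e
      · exact h5 (hve ▸ heY)
      · exact he v hve h4
    rw [h3] at hY'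
    exact hS.wc u hY' hz hu0
  · have h3 : Y = ∅ := by
      apply Finset.eq_empty_of_forall_notMem
      intro v hv
      exact heY (h1 v hv ▸ hv)
    rw [h3] at hY
    exact hS.wc u hY hz hu0

theorem cov (hL : IsCode L) (hS : Pool.Agent.H31.Q.Sides L S) : ∀ (e : V) (D' : V → K),
    (∀ v, v ≠ e → (D' v).1 = 1) → (∀ v, v ≠ e → ∃ u, KD L D' e u ∧ u v ≠ 0) →
      ∀ u, KD L D' e u → u ≠ 0 → u e = 0 → ∃ g, Splits L u g := by
  intro e D' h1 h2
  refine Pool.Agent.H55.Q.split_of_sides hL.iso h1 h2 (fun u Y => S u Y ∧ e ∉ Y) ?_ ?_ ?_ ?_ ?_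
  · intro u Y h
    exact h.2
  · intro u Y h
    exact (hS.mem u Y h.1).2
  · intro u hu _ _
    obtain ⟨Y, hY⟩ := hS.ex u hu
    by_cases heY : e ∈ Y
    · obtain ⟨Y', hY', h3⟩ := hS.compl u Y hY
      exact ⟨Y', hY', fun h4 => ((h3 e).1 h4).2 heY⟩
    · exact ⟨Y, hY, heY⟩
  · rintro u Y ⟨hY, heY⟩ _ k hk hle
    obtain ⟨k', h3, h4, h5, h6, ⟨Y', h7, h8⟩, -⟩ := hS.part u Y hY k hk hle
    exact ⟨k', h3, h4, h5, h6, fun _ => ⟨Y', h7, h8, fun h9 => heY (h7 h9)⟩⟩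
  · rintro u _ hu0 hz _ ⟨hY, -⟩
    exact hS.wc u hY hz hu0

theorem endSide (hH : Heart) : Pool.Agent.H62.Q1.EndSide := by
  intro V _ _ L S hL hz1 hz hS h5 _
  refine Pool.Agent.H16.FQ.adapt hL hz1 hz (by omega) (wc_one hS) (cov hL hS) ?_ ?_
  · intro e D P M0 t h _ _ hP hM0 _ ht hB hNz
    have hQ : P.erase M0 ⊆ P := Finset.erase_subset _ _
    have heW : ∀ M ∈ P.erase M0, e ∉ M := fun M hM => (hP.mem M (hQ hM)).2.1
    exact tree_of_heart hH _ _ _ hB hNz (Pool.Agent.H73.P4.rsides' hL (Pool.Agent.H16.FQ.toParts hP)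
      hQ h.letter ht heW hS)
  · intro e D P M0 h _ _ hP hM0 hmax _ hgz y hy leaf hr
    obtain ⟨g, a, b, c, _, _, _, hc, hcg, hca, _, h0⟩ := Pool.Agent.H95.End.own_free (sides95 hS)
      h.iso hz1 h.noz h.letter hP hM0 hmax hgz y hy leaf hr
    exact ⟨c, g, a, b, hc, hcg, hca, h0⟩

/-- full Q1 from row (B) -/
theorem main_of_heart (hH : Heart) {V : Type*} [Finite V] (G : SimpleGraph V)
    (M C₁ C₂ : G.Subgraph) (h : IsPermutationGraph G M C₁ C₂)
    (hcrit : IsCriticalContraPair G (wt M)) : IsPetersenPair G M :=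
  Pool.Agent.H62.Q1.main_of (endSide hH) G M C₁ C₂ h hcrit

end Pool.Agent.H88.Q
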